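import Pool.Agent.Helper13.PS.St2

/-!
# Project UP (MP_77ff3d_nt), module UE
-/

set_option autoImplicit false

namespace Pool.Agent.Helper72.PS

open Finset Pool.Agent.Helper76.ND Pool.Agent.Helper13.PS

theorem clog_bd (h : ℕ) (hh : 1 ≤ h) : 200 * Nat.clog 2 (3 ^ h) < 317 * h + 200 := by
  have h1 : 1 < 3 ^ h := Nat.one_lt_pow (by omega) (by norm_num)
  have h2 : 2 ^ (Nat.clog 2 (3 ^ h)).pred < 3 ^ h := Nat.pow_pred_clog_lt_self (by norm_num) h1
  have h3 : (2 ^ (Nat.clog 2 (3 ^ h)).pred) ^ 200 < (3 ^ h) ^ 200 :=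
    Nat.pow_lt_pow_left h2 (by norm_num)
  have h4 : (3 ^ h) ^ 200 ≤ (2 ^ 317) ^ h := by
    rw [← pow_mul, mul_comm h 200, pow_mul]
    have e : (3 : ℕ) ^ 200 ≤ 2 ^ 200 * 2 ^ 117 := by norm_num
    rw [← pow_add] at e
    exact Nat.pow_le_pow_left e h
  have h5 : 2 ^ ((Nat.clog 2 (3 ^ h)).pred * 200) < 2 ^ (317 * h) := by
    rw [pow_mul, pow_mul]
    exact lt_of_lt_of_le h3 h4
  have h6 := (Nat.pow_lt_pow_iff_right (by norm_num : 1 < 2)).1 h5
  have h7 : 1 ≤ Nat.clog 2 (3 ^ h) := Nat.clog_pos (by norm_num) (by omega)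
  rw [Nat.pred_eq_sub_one] at h6
  omega

/-- UE -/
theorem hUE : StUE := by
  intro H t N hH hHt hN hNt hE
  have hHpos : (0 : ℝ) < H := by linarith
  have ht : (2500 : ℝ) ≤ t := by
    by_contra hlt
    rw [not_le] at hlt
    have h0 : (0 : ℝ) ≤ t := Nat.cast_nonneg t
    nlinarith
  have htpos : (0 : ℝ) < t := by linarith
  have hD : H / t ≤ t / 2500 := by
    rw [div_le_div_iff₀ htpos (by norm_num)]
    nlinarith
  have hG : Gd (H / t) (wd t N) := by
    by_contra hno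
    exact hE (Or.inr hno)
  have h1 := hG t (by rw [wd_length])
  rw [wd_length, Nat.sub_self, List.drop_zero, abs_le] at h1
  obtain ⟨h2, h3⟩ := h1
  have hlo : (4996 / 10000 : ℝ) * t ≤ hd (wd t N) := by linarith
  have hhi : (hd (wd t N) : ℝ) ≤ (5004 / 10000 : ℝ) * t := by linarith
  have hh1 : (1 : ℝ) ≤ hd (wd t N) := by linarith
  have hh : 1 ≤ hd (wd t N) := by exact_mod_cast hh1
  have hc := clog_bd _ hh
  have hc' : (200 : ℝ) * nx t N < 317 * hd (wd t N) + 200 := by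
    unfold nx
    exact_mod_cast hc
  have hnx : (nx t N : ℝ) ≤ 7937 / 10000 * t := by linarith
  refine ⟨hh, hnx, ?_⟩
  have hle : nx t N ≤ t := by
    have : (nx t N : ℝ) ≤ t := by linarith
    exact_mod_cast this
  calc 3 ^ hd (wd t N) ≤ 2 ^ nx t N := Nat.le_pow_clog (by norm_num) _
    _ ≤ 2 ^ t := Nat.pow_le_pow_right (by norm_num) hle

end Pool.Agent.Helper72.PS
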